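import Pool.Agent.H.MP_782c7c_an.B

set_option autoImplicit false

namespace Pool.Agent.Results.MP_782c7c_an.TwoCircles

theorem result :
    ∃ (A : Fin 3 → Matrix (Fin 8) (Fin 8) ℂ) (γ : Fin 3 → Matrix (Fin 2) (Fin 2) ℂ),
      (∀ j, (A j).IsHermitian) ∧ (∀ j, (γ j).IsHermitian) ∧
      (∀ j l, γ j * γ l + γ l * γ j = if j = l then 2 else 0) ∧
      ∀ S : Set (Fin 3 → ℝ),
        S = {x : Fin 3 → ℝ | ¬ IsUnit (∑ j : Fin 3, Matrix.kronecker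
          (A j - ((x j : ℂ)) • (1 : Matrix (Fin 8) (Fin 8) ℂ)) (γ j))} →
        S.Nonempty ∧ ∀ p : S, ∃ U : Set S, IsOpen U ∧ p ∈ U ∧ Nonempty (U ≃ₜ ℝ) := by
  refine ⟨Pool.Agent.H.MP_782c7c_an.big, Pool.Agent.H.MP_fa5fea_an.pauli,
    Pool.Agent.H.MP_782c7c_an.big_herm, Pool.Agent.H.MP_fa5fea_an.pauli_herm,
    Pool.Agent.H.MP_fa5fea_an.pauli_rel, fun S hS => ?_⟩
  refine Pool.Agent.H.MP_782c7c_an.manifold S fun x => ?_
  rw [hS]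
  simp only [Matrix.isUnit_iff_isUnit_det, isUnit_iff_ne_zero, not_not, Set.mem_ofPred_eq]
  rfl

end Pool.Agent.Results.MP_782c7c_an.TwoCircles
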